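import Mathlib
import Pool.Agent.Run7.h936.GefDet
import Pool.Agent.Run7.h936.GefProb
import Pool.Agent.Run7.h936.GefCap

/-!
# The capacity formula for the hole probability of the Gaussian entire function is false

For a thin rectangle `K = [0,1] × [-ε,ε]` the transfinite diameter is at least `1/(4e)`, while the
hole probability exponent in `rK` is at most `C ε^2 r^4`.
-/

namespace Pool.Agent.Results.MP_629fb1_pr.CapacityFalse

open MeasureTheory ProbabilityTheory Filter Topology Run7.h936.Gef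

/-- The random series `f(z) = ∑_n ξ_n z^n / √(n!)`. -/
noncomputable def gef {Ω : Type*} (ξ : ℕ → Ω → ℂ) (ω : Ω) (z : ℂ) : ℂ :=
  ∑' n : ℕ, ξ n ω * z ^ n / (Real.sqrt (n.factorial) : ℂ)

/-- The hole event: `f` has no zero in `rK = {rz : z ∈ K}`. -/
def holeEvent {Ω : Type*} (ξ : ℕ → Ω → ℂ) (K : Set ℂ) (r : ℝ) : Set Ω :=
  {ω | ∀ z ∈ K, gef ξ ω ((r : ℂ) * z) ≠ 0}

/-- `ξ_0, ξ_1, …` are independent standard complex Gaussian random variables. -/
structure IsGaussianCoefficients {Ω : Type*} [MeasurableSpace Ω] (P : Measure Ω)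
    (ξ : ℕ → Ω → ℂ) : Prop where
  law : ∀ n, HasLaw (ξ n) stdComplexGaussian P
  indep : iIndepFun ξ P

/-- the thin rectangle -/
def rect (ε : ℝ) : Set ℂ := Set.Icc (0 : ℝ) 1 ×ℂ Set.Icc (-ε) ε

lemma mem_rect {ε : ℝ} {z : ℂ} : z ∈ rect ε ↔ (0 ≤ z.re ∧ z.re ≤ 1) ∧ (-ε ≤ z.im ∧ z.im ≤ ε) := by
  simp [rect, Complex.mem_reProdIm]

lemma rect_compact (ε : ℝ) : IsCompact (rect ε) :=
  isCompact_Icc.reProdIm isCompact_Icc

lemma rect_connected {ε : ℝ} (hε : 0 < ε) : IsConnected (rect ε) := by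
  have hconv : Convex ℝ (rect ε) := by
    have h1 := (convex_Icc (0 : ℝ) 1).linear_preimage Complex.reLm
    have h2 := (convex_Icc (-ε) ε).linear_preimage Complex.imLm
    exact h1.inter h2
  refine ⟨⟨0, ?_⟩, hconv.isPreconnected⟩
  rw [mem_rect]
  simp [hε.le]

lemma rect_interior {ε : ℝ} (hε : 0 < ε) : (interior (rect ε)).Nonempty := by
  refine ⟨(1 / 2 : ℝ), ?_⟩
  have : Set.Ioo (0 : ℝ) 1 ×ℂ Set.Ioo (-ε) ε ⊆ interior (rect ε) := by
    apply interior_maximal
    · exact Complex.reProdIm_subset_iff.2 (Set.prod_mono Set.Ioo_subset_Icc_self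
        Set.Ioo_subset_Icc_self)
    · exact isOpen_Ioo.reProdIm isOpen_Ioo
  apply this
  rw [Complex.mem_reProdIm]
  simp only [Complex.ofReal_re, Complex.ofReal_im, Set.mem_Ioo]
  refine ⟨⟨by norm_num, by norm_num⟩, by linarith, hε⟩

lemma rect_norm_sq {ε : ℝ} (hε : 0 < ε) (hε1 : ε ≤ 1) {z : ℂ} (hz : z ∈ rect ε) :
    ‖z‖ ^ 2 ≤ 2 := by
  rw [mem_rect] at hz
  rw [← Complex.normSq_eq_norm_sq, Complex.normSq_apply]
  nlinarith [hz.1.1, hz.1.2, hz.2.1, hz.2.2]

lemma rect_diam {ε : ℝ} (hε : 0 < ε) (hε1 : ε ≤ 1) : ∀ x ∈ rect ε, ∀ y ∈ rect ε, ‖x - y‖ ≤ 4 := by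
  intro x hx y hy
  have h1 := rect_norm_sq hε hε1 hx
  have h2 := rect_norm_sq hε hε1 hy
  have h3 : ‖x‖ ≤ 2 := by nlinarith [norm_nonneg x]
  have h4 : ‖y‖ ≤ 2 := by nlinarith [norm_nonneg y]
  calc ‖x - y‖ ≤ ‖x‖ + ‖y‖ := norm_sub_le _ _
    _ ≤ 4 := by linarith

/-- Lower bound for the hole probability of the thin rectangle. -/
lemma hole_lower {Ω : Type*} [MeasurableSpace Ω] (P : Measure Ω) [IsProbabilityMeasure P]
    (ξ : ℕ → Ω → ℂ) (hξ : IsGaussianCoefficients P ξ) {ε : ℝ} (hε : 0 < ε) (hε1 : ε ≤ 1)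
    (r : ℝ) (hr : 1 ≤ r) :
    Real.exp (-(802 * ε ^ 2 * r ^ 4 + 66567 * r ^ 3)) ≤ P.real (holeEvent ξ (rect ε) r) := by
  set N : ℕ := ⌈400 * r ^ 2⌉₊ with hN
  have hr2 : (1 : ℝ) ≤ r ^ 2 := one_le_pow₀ hr
  have hN1 : 400 * r ^ 2 ≤ N := Nat.le_ceil _
  have hN2 : (N : ℝ) ≤ 401 * r ^ 2 := by
    have := (Nat.ceil_lt_add_one (a := 400 * r ^ 2) (by positivity)).le
    linarith
  have hN4 : 4 ≤ N := by
    have : (4 : ℝ) ≤ N := by linarith
    exact_mod_cast this
  have hN0 : (0 : ℝ) < N := by linarith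
  have hsq : 1 ≤ Real.sqrt N := Real.one_le_sqrt.2 (by linarith)
  set η : ℝ := Real.exp (-(ε ^ 2 * r ^ 2)) / (4 * Real.sqrt N) with hη
  have hη0 : 0 < η := by positivity
  have hη1 : η ≤ 1 := by
    rw [hη, div_le_one (by positivity)]
    have : Real.exp (-(ε ^ 2 * r ^ 2)) ≤ 1 := by
      rw [Real.exp_le_one_iff]
      have : 0 ≤ ε ^ 2 * r ^ 2 := by positivity
      linarith
    linarith
  have hprob := prob_event P ξ hξ.law hξ.indep (fun n => (bcoef n : ℂ))
    (fun n => by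
      rw [Complex.norm_real, Real.norm_of_nonneg (bcoef_nonneg n)]
      exact bcoef_le_one n) N η hη0 hη1
  have hsub : {ω | (∀ n < N, ‖ξ n ω - (bcoef n : ℂ)‖ ≤ η) ∧ ∀ n, N ≤ n → ‖ξ n ω‖ ≤ 2 ^ (n + 1)} ⊆
      holeEvent ξ (rect ε) r := by
    rintro ω ⟨h1, h2⟩ z hz
    have hz' := mem_rect.1 hz
    have him : ((r : ℂ) * z).im = r * z.im := by simp
    have hims : ((r : ℂ) * z).im ^ 2 ≤ ε ^ 2 * r ^ 2 := by
      rw [him, mul_pow, mul_comm]
      have : z.im ^ 2 ≤ ε ^ 2 := sq_le_sq' (by linarith [hz'.2.1]) hz'.2.2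
      exact mul_le_mul_of_nonneg_right this (by positivity)
    refine no_zero (fun n => ξ n ω) N hN4 η hη0.le _ h1 h2 ?_ ?_
    · rw [norm_mul, mul_pow, Complex.norm_real, Real.norm_eq_abs, sq_abs]
      have h5 := rect_norm_sq hε hε1 hz
      have h6 : Real.exp 1 ≤ 3 := by linarith [Real.exp_one_lt_d9]
      calc 64 * Real.exp 1 * (r ^ 2 * ‖z‖ ^ 2) ≤ 64 * 3 * (r ^ 2 * 2) := by gcongr
        _ ≤ 400 * r ^ 2 := by nlinarith
        _ ≤ N := hN1
    · rw [hη, div_mul_eq_mul_div, mul_comm (4 : ℝ), ← div_div, mul_div_assoc, div_self (by positivity),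
        mul_one, div_eq_mul_inv, mul_comm, one_div]
      apply mul_le_mul_of_nonneg_left _ (by norm_num)
      apply Real.exp_le_exp.2
      linarith
  refine le_trans ?_ (hprob.trans (measureReal_mono hsub))
  -- now the numerical estimate
  have hlogN : Real.log (16 * N) ≤ 161 * r := by
    have h7 : Real.log (16 * N) = 2 * Real.log (Real.sqrt (16 * N)) := by
      rw [Real.log_sqrt (by positivity)]
      ring
    have h8 : Real.log (Real.sqrt (16 * N)) ≤ Real.sqrt (16 * N) := by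
      have := Real.log_le_sub_one_of_pos (x := Real.sqrt (16 * N)) (by positivity)
      linarith
    have h9 : Real.sqrt (16 * N) ≤ 80.5 * r := by
      rw [Real.sqrt_le_left (by positivity)]
      nlinarith
    rw [h7]
    linarith
  have heq : (η ^ 2 * Real.exp (-4)) ^ N * (1 / 2) =
      Real.exp (-(N * (2 * (ε ^ 2 * r ^ 2) + Real.log (16 * N) + 4) + Real.log 2)) := by
    have h10 : η ^ 2 * Real.exp (-4) =
        Real.exp (-(2 * (ε ^ 2 * r ^ 2) + Real.log (16 * N) + 4)) := by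
      rw [hη, div_pow, mul_pow, Real.sq_sqrt hN0.le, ← Real.exp_nat_mul]
      have h11 : Real.exp (-(2 * (ε ^ 2 * r ^ 2) + Real.log (16 * N) + 4)) =
          Real.exp (((2 : ℕ) : ℝ) * -(ε ^ 2 * r ^ 2)) * (Real.exp (Real.log (16 * N)))⁻¹ *
            Real.exp (-4) := by
        rw [← Real.exp_neg, ← Real.exp_add, ← Real.exp_add]
        congr 1
        push_cast
        ring
      rw [h11, Real.exp_log (by positivity), div_eq_mul_inv]
      norm_num
    rw [h10, ← Real.exp_nat_mul]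
    have h12 : (1 / 2 : ℝ) = Real.exp (-Real.log 2) := by
      rw [Real.exp_neg, Real.exp_log (by norm_num), one_div]
    rw [h12, ← Real.exp_add]
    congr 1
    ring
  rw [heq]
  apply Real.exp_le_exp.2
  have hlog2 : Real.log 2 ≤ 1 := by linarith [Real.log_two_lt_d9]
  have h13 : (N : ℝ) * (2 * (ε ^ 2 * r ^ 2) + Real.log (16 * N) + 4) ≤
      401 * r ^ 2 * (2 * (ε ^ 2 * r ^ 2) + 161 * r + 4) := by
    have h14 : 0 ≤ Real.log (16 * N) := Real.log_nonneg (by linarith)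
    have h15 : 2 * (ε ^ 2 * r ^ 2) + Real.log (16 * N) + 4 ≤
        2 * (ε ^ 2 * r ^ 2) + 161 * r + 4 := by linarith
    apply mul_le_mul hN2 h15 (by positivity) (by positivity)
  have h16 : 401 * r ^ 2 * (2 * (ε ^ 2 * r ^ 2) + 161 * r + 4) + 1 ≤
      802 * ε ^ 2 * r ^ 4 + 66567 * r ^ 3 := by
    have h17 : r ^ 2 ≤ r ^ 3 := pow_le_pow_right₀ hr (by norm_num)
    nlinarith [h17, hr2]
  linarith

/-- **The capacity conjecture for hole probabilities of the Gaussian entire function fails**, and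
no multiple of the fourth power of the capacity is a lower bound for the hole exponent: for every
`δ > 0` there is a connected compact set `K` with non-empty interior, with transfinite diameter
(= logarithmic capacity) `c > 0`, such that for independent standard complex Gaussian `ξ_n` the
probability that `f(z) = ∑ ξ_n z^n/√(n!)` has no zero in `rK` is at least `exp (-δ (c r)^4)` for
all large `r`; and `r^{-4} p_{H,K}(f;r)` does not converge to `(e^2/4) c^4`. -/
theorem result (δ : ℝ) (hδ : 0 < δ) :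
    ∃ K : Set ℂ, IsConnected K ∧ IsCompact K ∧ (interior K).Nonempty ∧
      ∃ c : ℝ, 0 < c ∧ IsTransfiniteDiameter K c ∧
        ∀ (Ω : Type*) [MeasurableSpace Ω] (P : Measure Ω) [IsProbabilityMeasure P]
          (ξ : ℕ → Ω → ℂ), IsGaussianCoefficients P ξ →
          (∀ᶠ r : ℝ in atTop, Real.exp (-(δ * (c * r) ^ 4)) ≤ P.real (holeEvent ξ K r)) ∧
          ¬ Tendsto (fun r : ℝ => -Real.log (P.real (holeEvent ξ K r)) / r ^ 4) atTop
            (𝓝 (Real.exp 2 / 4 * c ^ 4)) := by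
  set δ' : ℝ := min δ (Real.exp 2 / 8) with hδ'
  have hδ'0 : 0 < δ' := lt_min hδ (by positivity)
  set c0 : ℝ := 1 / (4 * Real.exp 1) with hc0
  have hc00 : 0 < c0 := by positivity
  set ε : ℝ := min 1 (δ' * c0 ^ 4 / 1604) with hε
  have hε0 : 0 < ε := lt_min one_pos (by positivity)
  have hε1 : ε ≤ 1 := min_le_left _ _
  have hε2 : 802 * ε ^ 2 ≤ δ' * c0 ^ 4 / 2 := by
    have h1 : ε ≤ δ' * c0 ^ 4 / 1604 := min_le_right _ _
    have h2 : ε ^ 2 ≤ ε := by nlinarith
    linarith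
  obtain ⟨c, hc, hcK⟩ := exists_transfiniteDiameter (rect ε)
    (by
      intro t h0 h1
      rw [mem_rect]
      simp [h0, h1, hε0.le]) 4 (by norm_num) (rect_diam hε0 hε1)
  refine ⟨rect ε, rect_connected hε0, rect_compact ε, rect_interior hε0, c,
    lt_of_lt_of_le hc00 hc, hcK, ?_⟩
  intro Ω _ P _ ξ hξ
  have hcpos : 0 < c := lt_of_lt_of_le hc00 hc
  have hmain : ∀ᶠ r : ℝ in atTop, Real.exp (-(δ' * (c * r) ^ 4)) ≤
      P.real (holeEvent ξ (rect ε) r) := by
    filter_upwards [eventually_ge_atTop (1 : ℝ),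
      eventually_ge_atTop (66567 / (δ' * c0 ^ 4 / 2))] with r hr1 hr2
    refine le_trans ?_ (hole_lower P ξ hξ hε0 hε1 r hr1)
    apply Real.exp_le_exp.2
    rw [div_le_iff₀ (by positivity)] at hr2
    have hr3 : 0 ≤ r ^ 3 := by positivity
    have hr4 : 0 ≤ r ^ 4 := by positivity
    have h3 : 66567 * r ^ 3 ≤ (δ' * c0 ^ 4 / 2) * r ^ 4 := by
      calc 66567 * r ^ 3 ≤ (r * (δ' * c0 ^ 4 / 2)) * r ^ 3 := by gcongr
        _ = (δ' * c0 ^ 4 / 2) * r ^ 4 := by ring
    have h4 : 802 * ε ^ 2 * r ^ 4 ≤ (δ' * c0 ^ 4 / 2) * r ^ 4 := by gcongr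
    have h5 : c0 ^ 4 ≤ c ^ 4 := by gcongr
    have h6 : δ' * c0 ^ 4 * r ^ 4 ≤ δ' * (c * r) ^ 4 := by
      rw [mul_pow]
      calc δ' * c0 ^ 4 * r ^ 4 ≤ δ' * c ^ 4 * r ^ 4 := by gcongr
        _ = δ' * (c ^ 4 * r ^ 4) := by ring
    linarith
  constructor
  · filter_upwards [hmain, eventually_ge_atTop (1 : ℝ)] with r hr hr1
    refine le_trans ?_ hr
    apply Real.exp_le_exp.2
    have : δ' * (c * r) ^ 4 ≤ δ * (c * r) ^ 4 := by
      gcongr
      exact min_le_left _ _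
    linarith
  · intro hlim
    have hle : Real.exp 2 / 4 * c ^ 4 ≤ Real.exp 2 / 8 * c ^ 4 := by
      refine le_of_tendsto hlim ?_
      filter_upwards [hmain, eventually_ge_atTop (1 : ℝ)] with r hr hr1
      have hr0 : 0 < r := by linarith
      have h1 : -(δ' * (c * r) ^ 4) ≤ Real.log (P.real (holeEvent ξ (rect ε) r)) := by
        have := Real.log_le_log (Real.exp_pos _) hr
        rwa [Real.log_exp] at this
      rw [div_le_iff₀ (by positivity)]
      have h2 : δ' * (c * r) ^ 4 ≤ Real.exp 2 / 8 * (c * r) ^ 4 := by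
        gcongr
        exact min_le_right _ _
      have h3 : Real.exp 2 / 8 * (c * r) ^ 4 = Real.exp 2 / 8 * c ^ 4 * r ^ 4 := by ring
      linarith
    have : 0 < Real.exp 2 * c ^ 4 := by positivity
    linarith

end Pool.Agent.Results.MP_629fb1_pr.CapacityFalse
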